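import Pool.Agent.MP_afd1e1_an.H2.Main

set_option autoImplicit false

open Filter Topology

namespace Pool.Agent.Results.MP_afd1e1_an.DimTwo

theorem result (X : Type) [NormedAddCommGroup X] [NormedSpace ℝ X] (hX : 2 ≤ Module.rank ℝ X)
    (Y : Type) [NormedAddCommGroup Y] [NormedSpace ℝ Y] (e : Y →ₗ[ℝ] (X → ℝ))
    (h1 : ∀ f : X → ℝ, (∃ y : Y, e y = f) ↔ (f 0 = 0 ∧ ∃ K : NNReal, LipschitzWith K f))
    (h2 : ∀ (y : Y) (K : NNReal), LipschitzWith K (e y) ↔ ‖y‖ ≤ (K : ℝ)) :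
    ∃ φ : ℕ → (Y →L[ℝ] ℝ), (∀ y : Y, Tendsto (fun n => φ n y) atTop (𝓝 0)) ∧
      ∃ Ψ : (Y →L[ℝ] ℝ) →L[ℝ] ℝ, ¬ Tendsto (fun n => Ψ (φ n)) atTop (𝓝 0) :=
  Pool.Agent.MP_afd1e1_an.H2.not_grothendieck hX e h1 h2

end Pool.Agent.Results.MP_afd1e1_an.DimTwo
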